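import Mathlib

/-!
Definitions and statements for project WU (helper889).
-/

set_option autoImplicit false

open Polynomial IntermediateField

namespace Pool.Agent.N889.WU

universe u

/-- The local ring of `k(π)` at `π = 0`, inside `L`. -/
def Oz (k : Type u) {L : Type u} [Field k] [Field L] [Algebra k L] (π : L) : Subring L where
  carrier := {x | ∃ f g : k[X], g.coeff 0 ≠ 0 ∧ x * aeval π g = aeval π f}
  mul_mem' := by
    rintro x y ⟨f, g, hg, h⟩ ⟨f', g', hg', h'⟩
    refine ⟨f * f', g * g', by simpa [mul_coeff_zero] using mul_ne_zero hg hg', ?_⟩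
    rw [map_mul, map_mul, ← h, ← h']; ring
  one_mem' := ⟨1, 1, by simp, by simp⟩
  add_mem' := by
    rintro x y ⟨f, g, hg, h⟩ ⟨f', g', hg', h'⟩
    refine ⟨f * g' + f' * g, g * g', by simpa [mul_coeff_zero] using mul_ne_zero hg hg', ?_⟩
    rw [map_mul, map_add, map_mul, map_mul, ← h, ← h']; ring
  zero_mem' := ⟨0, 1, by simp, by simp⟩
  neg_mem' := by
    rintro x ⟨f, g, hg, h⟩
    exact ⟨-f, g, hg, by rw [map_neg, ← h]; ring⟩

/-- The trace from `L` to a subfield `F`, as an element of `L`. -/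
noncomputable def TrL {k L : Type u} [Field k] [Field L] [Algebra k L]
    (F : IntermediateField k L) (x : L) : L := algebraMap F L (Algebra.trace F L x)

/-- `A` is a discrete valuation ring of `L` containing `k`, with residue field `k`. -/
def IsPlace (k : Type u) {L : Type u} [Field k] [Field L] [Algebra k L]
    (A : ValuationSubring L) : Prop :=
  (∀ a : k, algebraMap k L a ∈ A) ∧ IsDiscreteValuationRing A ∧
    ∀ x ∈ A, ∃ a : k, x - algebraMap k L a ∈ A.nonunits

/-- `N` is closed under multiplication by elements of `A` and contains `D(A)`. -/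
def Stable {k L : Type u} [Field k] [Field L] [Algebra k L]
    (A : ValuationSubring L) (D : Derivation k L L) (N : AddSubgroup L) : Prop :=
  (∀ a ∈ A, ∀ n ∈ N, a * n ∈ N) ∧ ∀ a ∈ A, D a ∈ N

/-- The map `z ↦ h(z)^(p^s) + c`. -/
noncomputable def fm {k L : Type u} [Field k] [Field L] [Algebra k L]
    (p s : ℕ) (h : k[X]) (c : L) (z : L) : L := (aeval z h) ^ p ^ s + c

/-- `L` is finite and separable over `k(t)`, `t` transcendental over `k`. -/
def SepFin (k : Type u) {L : Type u} [Field k] [Field L] [Algebra k L] (t : L) : Prop :=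
  Transcendental k t ∧ FiniteDimensional k⟮t⟯ L ∧ Algebra.IsSeparable k⟮t⟯ L

/-- MON: the integral closure of the local ring `Oz` in `L` is generated by one element. -/
def S_MON : Prop := ∀ (k L : Type u) [Field k] [IsAlgClosed k] [Field L] [Algebra k L] (π : L),
  SepFin k π →
  ∃ x : L, IsIntegral (Oz k π) x ∧ ∀ b : L, IsIntegral (Oz k π) b →
    ∃ q : (Oz k π)[X], b = aeval x q

/-- GEN: traces of `x ^ j dx`. -/
def S_GEN : Prop := ∀ (k L : Type u) [Field k] [Field L] [Algebra k L] (π : L)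
  (D : Derivation k L L), SepFin k π → D π = 1 → ∀ x : L, IsIntegral (Oz k π) x →
  ∀ j : ℕ, TrL k⟮π⟯ (x ^ j * D x) ∈ Oz k π

/-- TRREG: traces of `a db`. -/
def S_TRREG : Prop := ∀ (k L : Type u) [Field k] [IsAlgClosed k] [Field L] [Algebra k L] (π : L)
  (D : Derivation k L L), SepFin k π → D π = 1 → ∀ a b : L, IsIntegral (Oz k π) a →
  IsIntegral (Oz k π) b → TrL k⟮π⟯ (a * D b) ∈ Oz k π

/-- PL: localisations of the integral closure at maximal ideals are places. -/
def S_PL : Prop := ∀ (k L : Type u) [Field k] [IsAlgClosed k] [Field L] [Algebra k L] (π : L),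
  SepFin k π → ∀ m : Ideal (integralClosure (Oz k π) L), m.IsMaximal →
  ∃ A : ValuationSubring L, IsPlace k A ∧ ∀ x : L, x ∈ A ↔
    ∃ b r : integralClosure (Oz k π) L, r ∉ m ∧ x * (r : L) = (b : L)

/-- GLU: an element which is locally regular has regular trace. -/
def S_GLU : Prop := ∀ (k L : Type u) [Field k] [IsAlgClosed k] [Field L] [Algebra k L] (π : L)
  (D : Derivation k L L), SepFin k π → D π = 1 → ∀ y : L,
  (∀ A : ValuationSubring L, IsPlace k A → ∀ N : AddSubgroup L, Stable A D N → y ∈ N) →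
  TrL k⟮π⟯ y ∈ Oz k π

/-- GLOB: the projective line has no regular differentials. -/
def S_GLOB : Prop := ∀ (k L : Type u) [Field k] [IsAlgClosed k] [Field L] [Algebra k L] (t : L),
  Transcendental k t → ∀ g ∈ k⟮t⟯, (∀ a : k, g ∈ Oz k (t - algebraMap k L a)) →
  t ^ 2 * g ∈ Oz k t⁻¹ → g = 0

/-- DEG: monomials of degree at most `n` span an extension of degree at most `n + 1`. -/
def S_DEG : Prop := ∀ (F L : Type u) [Field F] [Field L] [Algebra F L] [FiniteDimensional F L]
  [Algebra.IsSeparable F L] (n : ℕ), Module.finrank F L ≤ n + 1 → ∀ z w y : L,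
  IntermediateField.adjoin F {z, w} = ⊤ →
  (∀ a b : ℕ, a + b ≤ n → Algebra.trace F L (z ^ a * w ^ b * y) = 0) → y = 0

/-- KP: key proposition. -/
def S_KP : Prop := ∀ (k L : Type u) [Field k] [IsAlgClosed k] [Field L] [Algebra k L] (t : L)
  (D : Derivation k L L), SepFin k t → D t = 1 → ∀ n : ℕ, Module.finrank k⟮t⟯ L ≤ n + 1 →
  ∀ z w y : L, IntermediateField.adjoin k {t, z, w} = ⊤ →
  (∀ A : ValuationSubring L, IsPlace k A → ∀ N : AddSubgroup L, Stable A D N →
    ∀ a b : ℕ, a + b ≤ n → z ^ a * w ^ b * y ∈ N) → y = 0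

/-- DER: the derivation `d/dt`. -/
def S_DER : Prop := ∀ (k L : Type u) [Field k] [Field L] [Algebra k L] (t : L), SepFin k t →
  ∃ D : Derivation k L L, D t = 1

/-- KER: constants of the derivation are `p`-th powers. -/
def S_KER : Prop := ∀ (p : ℕ) [Fact p.Prime] (k L : Type u) [Field k] [IsAlgClosed k] [CharP k p]
  [Field L] [Algebra k L] (t : L) (D : Derivation k L L), SepFin k t → D t = 1 →
  ∀ c : L, D c = 0 → ∃ b : L, b ^ p = c

/-- SEP: a generator of a separable rational subfield of at most the same degree. -/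
def S_SEP : Prop := ∀ (p : ℕ) [Fact p.Prime] (k L : Type u) [Field k] [IsAlgClosed k] [CharP k p]
  [Field L] [Algebra k L] (t : L), Transcendental k t → FiniteDimensional k⟮t⟯ L →
  ∃ t' : L, SepFin k t' ∧ Module.finrank k⟮t'⟯ L ≤ Module.finrank k⟮t⟯ L

/-- SIZE: sizes of preperiodic points. -/
def S_SIZE : Prop := ∀ (p s : ℕ) [Fact p.Prime] (k L : Type u) [Field k] [Field L] [Algebra k L]
  (h : k[X]) (c : L) (A : ValuationSubring L), 2 ≤ h.natDegree →
  (∀ a : k, algebraMap k L a ∈ A) → ∀ z w : L,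
  (Set.range fun m : ℕ => (fm p s h c)^[m] z).Finite →
  (Set.range fun m : ℕ => (fm p s h c)^[m] w).Finite →
  (c ∈ A → z ∈ A) ∧ (c ∉ A → z ∉ A ∧ z / w ∈ A)

/-- LOC: local regularity for two periodic points. -/
def S_LOC : Prop := ∀ (p s : ℕ) [Fact p.Prime] (k L : Type u) [Field k] [CharP k p] [Field L]
  [Algebra k L] (h : k[X]) (c z w : L) (A : ValuationSubring L) (D : Derivation k L L)
  (N : AddSubgroup L), 1 ≤ s → 3 ≤ h.natDegree → ¬ p ∣ h.natDegree → IsPlace k A →
  Stable A D N → D z = D c → D w = D c →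
  ((z ∈ A ∧ w ∈ A) ∨ (z ∉ A ∧ w ∉ A ∧ z / w ∈ A ∧ w / z ∈ A ∧ fm p s h c z / z ∈ A ∧
    fm p s h c w / z ∈ A)) →
  ∀ a b : ℕ, a + b + 3 ≤ h.natDegree → z ^ a * w ^ b * ((z - w) * D c) ∈ N

/-- LOC2: local regularity for a point which maps to a difference of constants. -/
def S_LOC2 : Prop := ∀ (p s : ℕ) [Fact p.Prime] (k L : Type u) [Field k] [CharP k p] [Field L]
  [Algebra k L] (h : k[X]) (x z w : L) (A : ValuationSubring L) (D : Derivation k L L)
  (N : AddSubgroup L), 1 ≤ s → 3 ≤ h.natDegree → ¬ p ∣ h.natDegree → IsPlace k A →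
  Stable A D N → D w = 0 → (aeval z h - aeval w h) ^ p ^ s = x →
  ((z ∈ A ∧ w ∈ A) ∨ (z ∉ A ∧ w ∉ A ∧ z / w ∈ A ∧ w / z ∈ A ∧ x / z ∈ A)) →
  ∀ a b : ℕ, a + b + 2 ≤ h.natDegree → z ^ a * w ^ b * D z ∈ N

/-- ALGX: two points with the same image and the same derivative coincide. -/
def S_ALGX : Prop := ∀ (p : ℕ) [Fact p.Prime] (k L : Type u) [Field k] [CharP k p] [Field L]
  [Algebra k L] (h : k[X]) (x z : L) (A : ValuationSubring L) (D : Derivation k L L),
  3 ≤ h.natDegree → ¬ p ∣ h.natDegree → IsPlace k A → z ∉ A → x / z ∈ A → z / x ∈ A →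
  aeval x h = aeval z h → D x = D z → D z ≠ 0 → x = z

/-- POLE: a nonconstant function has a pole. -/
def S_POLE : Prop := ∀ (k L : Type u) [Field k] [IsAlgClosed k] [Field L] [Algebra k L] (t : L),
  SepFin k t → ∀ c : L, Transcendental k c → ∃ A : ValuationSubring L, IsPlace k A ∧ c ∉ A

/-- MEAS: the measure for the induction. -/
def S_MEAS : Prop := ∀ (p : ℕ) [Fact p.Prime] (k L : Type u) [Field k] [Field L] [Algebra k L]
  (t : L), Transcendental k t → FiniteDimensional k⟮t⟯ L → ∀ b : L, Transcendental k b →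
  0 < Module.finrank k⟮b⟯ L ∧ Module.finrank k⟮b⟯ L < Module.finrank k⟮b ^ p⟯ L

/-- RED: passing to the field generated by two elements. -/
def S_RED : Prop := ∀ (k L : Type u) [Field k] [Field L] [Algebra k L] (t z w : L), SepFin k t →
  ∃ (M : Type u) (_ : Field M) (_ : Algebra k M) (i : M →ₐ[k] L) (t₁ z₁ w₁ : M),
    i t₁ = t ∧ i z₁ = z ∧ i w₁ = w ∧ SepFin k t₁ ∧
    Module.finrank k⟮t₁⟯ M ≤ Module.finrank k⟮t⟯ L ∧ IntermediateField.adjoin k {t₁, z₁, w₁} = ⊤

/-- Main statement over algebraically closed fields, for separable `t`. -/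
def S_MAIN : Prop := ∀ (p s : ℕ) [Fact p.Prime] (k L : Type u) [Field k] [IsAlgClosed k]
  [CharP k p] [Field L] [Algebra k L] (t : L), SepFin k t → ∀ (h : k[X]) (c : L), 1 ≤ s →
  ¬ p ∣ h.natDegree → Module.finrank k⟮t⟯ L + 2 ≤ h.natDegree → Transcendental k c →
  (∀ z ∈ Function.periodicPts (fm p s h c), ∀ w ∈ Function.periodicPts (fm p s h c), z = w) ∧
  ∀ z : L, (Set.range fun m : ℕ => (fm p s h c)^[m] z).Finite →
    fm p s h c z ∈ Function.periodicPts (fm p s h c)

/-- The final statement. -/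
def S_FINAL : Prop := ∀ (p s : ℕ) [Fact p.Prime] (k L : Type u) [Field k]
  [CharP k p] [Field L] [Algebra k L] (t : L), 0 < Module.finrank k⟮t⟯ L → ∀ (h : k[X]) (c : L),
  1 ≤ s → ¬ p ∣ h.natDegree → Module.finrank k⟮t⟯ L + 2 ≤ h.natDegree → Transcendental k c →
  (Function.periodicPts (fm p s h c)).encard ≤ 1 ∧
  (∀ z : L, (Set.range fun m : ℕ => (fm p s h c)^[m] z).Finite →
    fm p s h c z ∈ Function.periodicPts (fm p s h c)) ∧
  {z : L | (Set.range fun m : ℕ => (fm p s h c)^[m] z).Finite}.encard ≤ (h.natDegree : ℕ∞)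

/-- BC: reduction to algebraically closed fields of constants. -/
def S_BC : Prop := ∀ (k L : Type u) [Field k] [Field L] [Algebra k L] (t : L),
  Transcendental k t → FiniteDimensional k⟮t⟯ L →
  ∃ (k' M : Type u) (_ : Field k') (_ : IsAlgClosed k') (_ : Field M) (_ : Algebra k' M)
    (i : k →+* k') (j : L →+* M) (t' : M), (∀ a : k, j (algebraMap k L a) = algebraMap k' M (i a)) ∧
    t' = j t ∧ Transcendental k' t' ∧ FiniteDimensional k'⟮t'⟯ M ∧
    Module.finrank k'⟮t'⟯ M ≤ Module.finrank k⟮t⟯ L ∧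
    ∀ c : L, Transcendental k c → Transcendental k' (j c)

end Pool.Agent.N889.WU
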