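import Pool.Agent.N889.WU.Stm

set_option autoImplicit false

open Polynomial IntermediateField

namespace Pool.Agent.N889.WU

universe u

/-- P1: there is at most one periodic point. -/
def S_P1 : Prop := ∀ (p s : ℕ) [Fact p.Prime] (k L : Type u) [Field k] [IsAlgClosed k]
  [CharP k p] [Field L] [Algebra k L] (t : L), SepFin k t → ∀ (h : k[X]) (c : L), 1 ≤ s →
  ¬ p ∣ h.natDegree → Module.finrank k⟮t⟯ L + 2 ≤ h.natDegree → Transcendental k c →
  ∀ z ∈ Function.periodicPts (fm p s h c), ∀ w ∈ Function.periodicPts (fm p s h c), z = w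

/-- P2: if the second iterate is a fixed point, so is the first. -/
def S_P2 : Prop := ∀ (p s : ℕ) [Fact p.Prime] (k L : Type u) [Field k] [IsAlgClosed k]
  [CharP k p] [Field L] [Algebra k L] (t : L), SepFin k t → ∀ (h : k[X]) (c : L), 1 ≤ s →
  ¬ p ∣ h.natDegree → Module.finrank k⟮t⟯ L + 2 ≤ h.natDegree → Transcendental k c →
  ∀ z z₀ : L, fm p s h c z₀ = z₀ → fm p s h c (fm p s h c z) = z₀ → fm p s h c z = z₀

end Pool.Agent.N889.WU
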